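import Mathlib
import Pool.Agent.Helper90.NoTwoMultiplesDefs
import Pool.Agent.Helper90.NoTwoMultiplesLimit

/-!
# The limit of f(n)/n exists

f(n) is the largest size of a subset of [1,n] in which no element divides two other elements.
-/

open Finset Filter Topology
open Pool.Agent.Helper90.NoTwoMultiples

namespace Pool.Agent.Helper90.Old.NTMLimitExists

theorem result :
    ∃ c : ℝ, Tendsto (fun n : ℕ => (f n : ℝ) / n) atTop (𝓝 c) ∧
      ∀ y : ℕ, 2 ≤ y →
        (Summable fun i : ℕ => |(h y (i + 1) : ℝ) - h y i| / ((i : ℝ) + 1)) ∧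
        (∏ p ∈ Nat.primesBelow y, (1 - 1 / (p : ℝ))) *
          ∑' i : ℕ, ((h y (i + 1) : ℝ) - h y i) / ((i : ℝ) + 1) ≤ c ∧
        c ≤ (∏ p ∈ Nat.primesBelow y, (1 - 1 / (p : ℝ))) *
          ∑' i : ℕ, ((h y (i + 1) : ℝ) - h y i) / ((i : ℝ) + 1) + 1 / y :=
  limit_exists

end Pool.Agent.Helper90.Old.NTMLimitExists
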